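import Mathlib

/-!
A commutative ring that is a weak `(2,0)`-ring in the sense of Mahdou and has positive small
finitistic dimension.
-/

namespace Pool.Agent.Results.MP_682377_al.MahdouWeakFPD

open CategoryTheory

set_option linter.unusedSectionVars false

universe u

/-- `IsNPresented R n M`: there is an exact sequence `F_n → ⋯ → F_0 → M → 0` with all `F_i`
finitely generated free (stated recursively through kernels). -/
def IsNPresented (R : Type u) [CommRing R] :
    ℕ → ∀ (M : Type u) [AddCommGroup M] [Module R M], Prop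
  | 0, M, _, _ => Module.Finite R M
  | n + 1, M, _, _ => ∃ (k : ℕ) (f : (Fin k → R) →ₗ[R] M), Function.Surjective f ∧
      IsNPresented R n (LinearMap.ker f)

/-- Weak `(n,d)`-rings in the sense of Mahdou: every `n`-presented cyclic module `R/I` has
projective dimension at most `d`. -/
def IsMahdouWeak (R : Type u) [CommRing R] (n d : ℕ) : Prop :=
  ∀ I : Ideal R, IsNPresented R n (R ⧸ I) → projectiveDimension (ModuleCat.of R (R ⧸ I)) ≤ d

/-- `HasFinRes R m M`: there is an exact sequence `0 → P_m → ⋯ → P_0 → M → 0` with all `P_i`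
finitely generated projective (stated recursively through kernels). -/
def HasFinRes (R : Type u) [CommRing R] :
    ℕ → ∀ (M : Type u) [AddCommGroup M] [Module R M], Prop
  | 0, M, _, _ => Module.Finite R M ∧ Module.Projective R M
  | m + 1, M, _, _ => ∃ (P : Type u) (_ : AddCommGroup P) (_ : Module R P) (f : P →ₗ[R] M),
      Module.Finite R P ∧ Module.Projective R P ∧ Function.Surjective f ∧
      HasFinRes R m (LinearMap.ker f)

/-- The small finitistic dimension: the supremum of the projective dimensions of all modules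
having a finite resolution by finitely generated projective modules. -/
noncomputable def fPD (R : Type u) [CommRing R] : WithBot ℕ∞ :=
  ⨆ (M : ModuleCat.{u} R) (_ : ∃ m, HasFinRes R m M), projectiveDimension M

section ring

variable (A : Type) [CommRing A] (E : Type) [AddCommGroup E] [Module A E]

/-- The trivial extension `A ⋉ E`. -/
@[ext] structure TE where
  /-- ring part -/
  a : A
  /-- module part -/
  v : E

variable {A E}

namespace TE

instance : Zero (TE A E) := ⟨⟨0, 0⟩⟩
instance : One (TE A E) := ⟨⟨1, 0⟩⟩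
instance : Add (TE A E) := ⟨fun x y => ⟨x.a + y.a, x.v + y.v⟩⟩
instance : Neg (TE A E) := ⟨fun x => ⟨-x.a, -x.v⟩⟩
instance : Mul (TE A E) := ⟨fun x y => ⟨x.a * y.a, x.a • y.v + y.a • x.v⟩⟩

@[simp] lemma zero_a : (0 : TE A E).a = 0 := rfl
@[simp] lemma zero_v : (0 : TE A E).v = 0 := rfl
@[simp] lemma one_a : (1 : TE A E).a = 1 := rfl
@[simp] lemma one_v : (1 : TE A E).v = 0 := rfl
@[simp] lemma add_a (x y : TE A E) : (x + y).a = x.a + y.a := rfl
@[simp] lemma add_v (x y : TE A E) : (x + y).v = x.v + y.v := rfl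
@[simp] lemma neg_a (x : TE A E) : (-x).a = -x.a := rfl
@[simp] lemma neg_v (x : TE A E) : (-x).v = -x.v := rfl
@[simp] lemma mul_a (x y : TE A E) : (x * y).a = x.a * y.a := rfl
@[simp] lemma mul_v (x y : TE A E) : (x * y).v = x.a • y.v + y.a • x.v := rfl

instance : CommRing (TE A E) := CommRing.ofMinimalAxioms
  (fun x y z => by ext <;> simp [add_assoc])
  (fun x => by ext <;> simp)
  (fun x => by ext <;> simp)
  (fun x y z => by
    ext
    · simp [mul_assoc]
    · simp only [mul_a, mul_v, smul_add, smul_smul]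
      rw [mul_comm z.a x.a, mul_comm z.a y.a, add_assoc])
  (fun x y => by
    ext
    · simp [mul_comm]
    · simp only [mul_v]; rw [add_comm])
  (fun x => by ext <;> simp)
  (fun x y z => by
    ext
    · simp [mul_add]
    · simp only [mul_v, add_v, add_a, smul_add, add_smul]; abel)

/-- projection to the ring part as an additive map -/
def aHom : TE A E →+ A := ⟨⟨fun x => x.a, rfl⟩, fun _ _ => rfl⟩
/-- projection to the module part as an additive map -/
def vHom : TE A E →+ E := ⟨⟨fun x => x.v, rfl⟩, fun _ _ => rfl⟩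

lemma sum_a {ι : Type*} (s : Finset ι) (f : ι → TE A E) :
    (∑ i ∈ s, f i).a = ∑ i ∈ s, (f i).a := map_sum (aHom (A := A) (E := E)) f s
lemma sum_v {ι : Type*} (s : Finset ι) (f : ι → TE A E) :
    (∑ i ∈ s, f i).v = ∑ i ∈ s, (f i).v := map_sum (vHom (A := A) (E := E)) f s

end TE

end ring

section module

variable {A : Type} [CommRing A] {E : Type} [AddCommGroup E] [Module A E]

/-- First property of `E`: fresh copies of `A/fA`. -/
def Fresh (A : Type) [CommRing A] (E : Type) [AddCommGroup E] [Module A E] : Prop :=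
  ∀ (F : Finset E) (f : A), f ≠ 0 → ∃ (π : E →ₗ[A] A ⧸ Ideal.span {f}) (ι : E),
    (∀ e ∈ F, π e = 0) ∧ π ι = 1 ∧ f • ι = 0

/-- Second property of `E`: torsion. -/
def Tors (A : Type) [CommRing A] (E : Type) [AddCommGroup E] [Module A E] : Prop :=
  ∀ e : E, ∃ f : A, f ≠ 0 ∧ f • e = 0

/-- The key lemma: if the relation module of `g : Fin m → R` is finitely generated, `f ≠ 0` and
`(g i₀).a ∈ f A`, then there is a relation `s` with `δ_{i,i₀} - (s i).a ∈ f A` for all `i`. -/
lemma key (hE : Fresh A E) {m : ℕ} (g : Fin m → TE A E) (S : Submodule (TE A E) (Fin m → TE A E))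
    (hS : ∀ r, r ∈ S ↔ ∑ i, r i * g i = 0) (hfg : S.FG) (f : A) (hf : f ≠ 0) (i0 : Fin m)
    (hi0 : (g i0).a ∈ Ideal.span {f}) :
    ∃ s ∈ S, ∀ i, (Pi.single i0 (1 : A) : Fin m → A) i - (s i).a ∈ Ideal.span {f} := by
  classical
  obtain ⟨T, hT⟩ := hfg
  obtain ⟨π, ε, hπ, hπι, hfι⟩ := hE (T.biUnion fun t => Finset.univ.image fun i => (t i).v) f hf
  have hn0 : ∀ t ∈ T, ∀ i, π (t i).v = 0 := by
    intro t ht i
    apply hπ
    rw [Finset.mem_biUnion]
    exact ⟨t, ht, Finset.mem_image_of_mem _ (Finset.mem_univ i)⟩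
  have hQ : ∀ w ∈ Submodule.span (TE A E) (T : Set (Fin m → TE A E)), ∃ s ∈ S, ∀ i,
      π (w i).v = Ideal.Quotient.mk (Ideal.span {f}) (s i).a := by
    intro w hw
    have hw' : w ∈ S := hT ▸ hw
    induction hw using Submodule.span_induction with
    | mem t ht =>
      refine ⟨0, S.zero_mem, fun i => ?_⟩
      rw [hn0 t ht i]
      simp
    | zero => exact ⟨0, S.zero_mem, fun i => by simp⟩
    | add w1 w2 h1 h2 ih1 ih2 =>
      obtain ⟨s1, hs1, e1⟩ := ih1 (hT ▸ h1)
      obtain ⟨s2, hs2, e2⟩ := ih2 (hT ▸ h2)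
      refine ⟨s1 + s2, S.add_mem hs1 hs2, fun i => ?_⟩
      simp [e1, e2]
    | smul r w h ih =>
      obtain ⟨s, hs, e⟩ := ih (hT ▸ h)
      obtain ⟨c, hc⟩ := Ideal.Quotient.mk_surjective (π r.v)
      refine ⟨(⟨r.a, 0⟩ : TE A E) • s + (⟨c, 0⟩ : TE A E) • w, S.add_mem (S.smul_mem _ hs)
        (S.smul_mem _ (hT ▸ h)), fun i => ?_⟩
      have h1 : ((r • w) i).v = r.a • (w i).v + (w i).a • r.v := rfl
      have h2 : (((⟨r.a, 0⟩ : TE A E) • s + (⟨c, 0⟩ : TE A E) • w) i).a =
        r.a * (s i).a + c * (w i).a := rfl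
      rw [h1, h2, map_add, map_smul, map_smul, e, ← hc, map_add, map_mul, map_mul]
      rw [Algebra.smul_def, Algebra.smul_def, Ideal.Quotient.algebraMap_eq]
      ring
  have hz : (Pi.single i0 (⟨0, ε⟩ : TE A E) : Fin m → TE A E) ∈ S := by
    rw [hS, Finset.sum_eq_single i0]
    · rw [Pi.single_eq_same]
      obtain ⟨c, hc⟩ := Ideal.mem_span_singleton'.1 hi0
      ext1
      · simp
      · simp only [TE.mul_v, zero_smul, zero_add, TE.zero_v]
        rw [← hc, mul_smul, hfι, smul_zero]
    · intro j _ hj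
      rw [Pi.single_eq_of_ne hj, zero_mul]
    · intro h; exact absurd (Finset.mem_univ _) h
  obtain ⟨s, hs, e⟩ := hQ _ (hT.symm ▸ hz)
  refine ⟨s, hs, fun i => ?_⟩
  have h1 := e i
  rw [← Ideal.Quotient.eq_zero_iff_mem, map_sub, sub_eq_zero, ← h1]
  by_cases hi : i = i0
  · subst hi
    simp [hπι]
  · rw [Pi.single_eq_of_ne hi, Pi.single_eq_of_ne hi]
    simp

lemma exists_common_ann [IsDomain A] (hE : Tors A E) {m : ℕ} (e : Fin m → E) :
    ∃ f : A, f ≠ 0 ∧ ∀ i, f • e i = 0 := by
  choose f hf hfe using fun i => hE (e i)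
  refine ⟨∏ i, f i, Finset.prod_ne_zero_iff.2 fun i _ => hf i, fun i => ?_⟩
  obtain ⟨c, hc⟩ := Finset.dvd_prod_of_mem f (Finset.mem_univ i)
  rw [hc, mul_comm, mul_smul, hfe, smul_zero]

/-- Every ideal of `R` generated by `g` with finitely generated relation module is `0` or `R`. -/
lemma ideal_trivial [IsDomain A] (hE1 : Fresh A E) (hE2 : Tors A E) {m : ℕ} (g : Fin m → TE A E)
    (S : Submodule (TE A E) (Fin m → TE A E))
    (hS : ∀ r, r ∈ S ↔ ∑ i, r i * g i = 0) (hfg : S.FG) :
    Ideal.span (Set.range g) = ⊥ ∨ Ideal.span (Set.range g) = ⊤ := by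
  classical
  by_cases h : ∃ i0, (g i0).a ≠ 0
  · right
    obtain ⟨i0, hi0⟩ := h
    obtain ⟨s, hs, hsi⟩ := key hE1 g S hS hfg (g i0).a hi0 i0 (Ideal.mem_span_singleton_self _)
    choose r' hr' using fun i => Ideal.mem_span_singleton'.1 (hsi i)
    have h1 : ∑ i, (s i).a * (g i).a = 0 := by
      have := congrArg TE.a ((hS s).1 hs)
      rw [TE.sum_a] at this
      simpa using this
    have h2 : (g i0).a * ∑ i, r' i * (g i).a = (g i0).a * 1 := by
      have : ∑ i, (r' i * (g i0).a) * (g i).a = (g i0).a := by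
        simp_rw [hr', sub_mul]
        rw [Finset.sum_sub_distrib, h1, sub_zero, Finset.sum_eq_single i0]
        · simp
        · intro j _ hj; rw [Pi.single_eq_of_ne hj, zero_mul]
        · intro h; exact absurd (Finset.mem_univ _) h
      rw [Finset.mul_sum, mul_one]
      conv_rhs => rw [← this]
      refine Finset.sum_congr rfl fun i _ => ?_
      ring
    have h3 := mul_left_cancel₀ hi0 h2
    rw [Ideal.eq_top_iff_one]
    have h4 : ∑ i, (⟨r' i, 0⟩ : TE A E) * g i ∈ Ideal.span (Set.range g) :=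
      Ideal.sum_mem _ fun i _ => Ideal.mul_mem_left _ _ (Ideal.subset_span ⟨i, rfl⟩)
    set w := ∑ i, (⟨r' i, 0⟩ : TE A E) * g i with hw
    have h5 : w.a = 1 := by
      rw [hw, TE.sum_a]
      simpa using h3
    have h6 : (⟨1, -w.v⟩ : TE A E) * w = 1 := by
      ext1
      · simp [h5]
      · simp [h5]
    rw [← h6]
    exact Ideal.mul_mem_left _ _ h4
  · left
    push Not at h
    -- a common annihilator
    obtain ⟨f, hf, hfg0⟩ := exists_common_ann hE2 (fun i => (g i).v)
    have hall : ∀ i0, g i0 = 0 := by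
      intro i0
      obtain ⟨s, hs, hsi⟩ := key hE1 g S hS hfg f hf i0 (by rw [h i0]; exact Ideal.zero_mem _)
      have h1 : ∑ i, (s i).a • (g i).v = 0 := by
        have := congrArg TE.v ((hS s).1 hs)
        rw [TE.sum_v] at this
        simpa [h] using this
      have h2 : ∀ i, ((Pi.single i0 (1 : A) : Fin m → A) i - (s i).a) • (g i).v = 0 := by
        intro i
        obtain ⟨c, hc⟩ := Ideal.mem_span_singleton'.1 (hsi i)
        rw [← hc, mul_smul, hfg0, smul_zero]
      have h3 : ∑ i, ((Pi.single i0 (1 : A) : Fin m → A) i) • (g i).v = 0 := by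
        rw [← h1]
        refine Finset.sum_congr rfl fun i _ => ?_
        have := h2 i
        rwa [sub_smul, sub_eq_zero] at this
      rw [Finset.sum_eq_single i0] at h3
      · rw [Pi.single_eq_same, one_smul] at h3
        ext1
        · exact h i0
        · exact h3
      · intro j _ hj; rw [Pi.single_eq_of_ne hj, zero_smul]
      · intro h; exact absurd (Finset.mem_univ _) h
    rw [Ideal.span_eq_bot]
    rintro x ⟨i, rfl⟩
    exact hall i

end module

section present

variable {R : Type u} [CommRing R]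

lemma finitePresentation_of_one {M : Type u} [AddCommGroup M] [Module R M]
    (h : IsNPresented R 1 M) : Module.FinitePresentation R M := by
  obtain ⟨k, f, hf, hk⟩ := h
  have hk' : (LinearMap.ker f).FG := by
    rw [← Module.Finite.iff_fg]; exact hk
  exact Module.finitePresentation_of_surjective f hf hk'

/-- If `R/I` is `2`-presented then `I` is finitely presented. -/
lemma finitePresentation_ideal (I : Ideal R) (h : IsNPresented R 2 (R ⧸ I)) :
    Module.FinitePresentation R I := by
  obtain ⟨k, f, hf, hk⟩ := h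
  have hK := finitePresentation_of_one hk
  obtain ⟨h', hh'⟩ : ∃ h' : R →ₗ[R] (Fin k → R), f.comp h' = Submodule.mkQ I :=
    Module.projective_lifting_property f (Submodule.mkQ I) hf
  obtain ⟨h, hh⟩ : ∃ h : (Fin k → R) →ₗ[R] R, (Submodule.mkQ I).comp h = f :=
    Module.projective_lifting_property (Submodule.mkQ I) f (Submodule.mkQ_surjective I)
  have hh1 : ∀ r, f (h' r) = Submodule.mkQ I r := fun r => LinearMap.congr_fun hh' r
  have hh2 : ∀ x, Submodule.mkQ I (h x) = f x := fun x => LinearMap.congr_fun hh x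
  let θ0 : (LinearMap.ker f) × R →ₗ[R] R :=
    (h.comp (LinearMap.ker f).subtype).coprod (LinearMap.id - h.comp h')
  have hθ0 : ∀ p : (LinearMap.ker f) × R, θ0 p = h p.1 + (p.2 - h (h' p.2)) := by
    intro p
    simp [θ0, LinearMap.coprod_apply]
  have hmem : ∀ p, θ0 p ∈ I := by
    intro p
    rw [← Submodule.Quotient.mk_eq_zero I]
    change Submodule.mkQ I (θ0 p) = 0
    rw [hθ0, map_add, map_sub, hh2, hh2, hh1, LinearMap.mem_ker.1 p.1.2]
    simp
  let θ : (LinearMap.ker f) × R →ₗ[R] I := θ0.codRestrict I hmem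
  have hθ : Function.Surjective θ := by
    rintro ⟨r, hr⟩
    have h1 : h' r ∈ LinearMap.ker f := by
      rw [LinearMap.mem_ker, hh1]
      exact (Submodule.Quotient.mk_eq_zero I).2 hr
    refine ⟨(⟨h' r, h1⟩, r), ?_⟩
    apply Subtype.ext
    change θ0 _ = r
    rw [hθ0]; simp
  have hker : (LinearMap.ker θ).FG := by
    have hm1 : ∀ x, x - h' (h x) ∈ LinearMap.ker f := by
      intro x
      rw [LinearMap.mem_ker, map_sub, hh1, hh2, sub_self]
    let ζ : (Fin k → R) →ₗ[R] (LinearMap.ker f) × R :=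
      ((LinearMap.id - h'.comp h).codRestrict (LinearMap.ker f) hm1).prod (-h)
    have : LinearMap.ker θ = LinearMap.range ζ := by
      ext p
      constructor
      · intro hp
        have hp' : h p.1 + (p.2 - h (h' p.2)) = 0 := by
          rw [← hθ0]
          exact congrArg Subtype.val (LinearMap.mem_ker.1 hp)
        refine ⟨(p.1 : Fin k → R) - h' p.2, ?_⟩
        have h3 : h ((p.1 : Fin k → R) - h' p.2) = - p.2 := by
          rw [map_sub]
          linear_combination hp'
        apply Prod.ext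
        · apply Subtype.ext
          change ((p.1 : Fin k → R) - h' p.2) - h' (h ((p.1 : Fin k → R) - h' p.2)) = p.1
          rw [h3, map_neg]; simp
        · change - h ((p.1 : Fin k → R) - h' p.2) = p.2
          rw [h3]; simp
      · rintro ⟨x, rfl⟩
        rw [LinearMap.mem_ker]
        apply Subtype.ext
        change θ0 _ = 0
        rw [hθ0]
        change h (x - h' (h x)) + (-(h x) - h (h' (-(h x)))) = 0
        rw [map_sub, map_neg h', map_neg h]; ring
    rw [this]
    rw [← Module.Finite.iff_fg]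
    infer_instance
  exact Module.finitePresentation_of_surjective θ hθ hker

lemma nPresented_mono (n : ℕ) : ∀ (M : Type u) [AddCommGroup M] [Module R M],
    IsNPresented R (n + 1) M → IsNPresented R n M := by
  induction n with
  | zero =>
    intro M _ _ ⟨k, f, hf, _⟩
    exact Module.Finite.of_surjective f hf
  | succ n ih =>
    intro M _ _ ⟨k, f, hf, hk⟩
    exact ⟨k, f, hf, ih _ hk⟩

lemma nPresented_two (n : ℕ) (hn : 2 ≤ n) (M : Type u) [AddCommGroup M] [Module R M]
    (h : IsNPresented R n M) : IsNPresented R 2 M := by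
  induction n, hn using Nat.le_induction with
  | base => exact h
  | succ n _ ih => exact ih (nPresented_mono n M h)

end present

lemma mahdou_weak {A : Type} [CommRing A] [IsDomain A] {E : Type} [AddCommGroup E] [Module A E]
    (hE1 : Fresh A E) (hE2 : Tors A E) (n : ℕ) (hn : 2 ≤ n) :
    IsMahdouWeak (TE A E) n 0 := by
  intro I hI
  have hfp := finitePresentation_ideal I (nPresented_two n hn _ hI)
  have hIfg : I.FG := by
    have : Module.Finite (TE A E) I := inferInstance
    exact Module.Finite.iff_fg.1 this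
  obtain ⟨m, g, hg⟩ := Submodule.fg_iff_exists_fin_generating_family.1 hIfg
  have hgI : ∀ i, g i ∈ I := fun i => hg ▸ Submodule.subset_span ⟨i, rfl⟩
  -- presentation map
  let G : (Fin m → TE A E) →ₗ[TE A E] I :=
    Fintype.linearCombination (TE A E) (fun i => (⟨g i, hgI i⟩ : I))
  have hG : ∀ r, (G r : TE A E) = ∑ i, r i * g i := by
    intro r
    simp [G, Fintype.linearCombination_apply]
  have hGs : Function.Surjective G := by
    rintro ⟨x, hx⟩
    have hx' : x ∈ Submodule.span (TE A E) (Set.range g) := hg.symm ▸ hx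
    obtain ⟨c, hc⟩ := (Submodule.mem_span_range_iff_exists_fun _).1 hx'
    refine ⟨c, Subtype.ext ?_⟩
    rw [hG]
    simpa using hc
  have hker : (LinearMap.ker G).FG := Module.FinitePresentation.fg_ker G hGs
  have hdich := ideal_trivial hE1 hE2 g (LinearMap.ker G) (by
    intro r
    rw [LinearMap.mem_ker, ← hG]
    exact ⟨fun h => by rw [h]; rfl, fun h => Subtype.ext h⟩) hker
  have hI' : Ideal.span (Set.range g) = I := hg
  rw [hI'] at hdich
  have hproj : Module.Projective (TE A E) (TE A E ⧸ I) := by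
    rcases hdich with h | h
    · subst h
      exact Module.Projective.of_equiv (Submodule.quotEquivOfEqBot ⊥ rfl).symm
    · subst h
      have : Subsingleton (TE A E ⧸ (⊤ : Ideal (TE A E))) := inferInstance
      infer_instance
  rw [projectiveDimension_le_iff, ← projective_iff_hasProjectiveDimensionLE_zero]
  exact (IsProjective.iff_projective (R := TE A E) (TE A E ⧸ I)).1 hproj

/-- If `x, y` generate a proper ideal of the domain `A` and have no common nonzero annihilated
element in `E` then `fPD (A ⋉ E) > 0`. -/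
lemma fPD_pos {A : Type} [CommRing A] [IsDomain A] {E : Type} [AddCommGroup E] [Module A E]
    (x y : A) (hx : x ≠ 0) (hreg : ∀ v : E, x • v = 0 → y • v = 0 → v = 0)
    (hprop : ∀ p q : A, p * x + q * y ≠ 1) :
    ¬ fPD (TE A E) ≤ 0 := by
  classical
  let φ : TE A E →ₗ[TE A E] (TE A E × TE A E) :=
    (LinearMap.toSpanSingleton (TE A E) (TE A E × TE A E) ((⟨x, 0⟩ : TE A E), (⟨y, 0⟩ : TE A E)))
  have hφ : ∀ r, φ r = (r * ⟨x, 0⟩, r * ⟨y, 0⟩) := by
    intro r
    simp [φ]
  have hinj : Function.Injective φ := by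
    rw [← LinearMap.ker_eq_bot, LinearMap.ker_eq_bot']
    intro r hr
    rw [hφ, Prod.mk_eq_zero] at hr
    obtain ⟨h1, h2⟩ := hr
    have ha : r.a = 0 := by
      have := congrArg TE.a h1
      simp only [TE.mul_a, TE.zero_a, mul_eq_zero] at this
      exact this.resolve_right hx
    have hv1 : x • r.v = 0 := by
      have := congrArg TE.v h1
      simpa using this
    have hv2 : y • r.v = 0 := by
      have := congrArg TE.v h2
      simpa using this
    have hv : r.v = 0 := hreg _ hv1 hv2
    ext1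
    · exact ha
    · exact hv
  intro hle
  have hres : HasFinRes (TE A E) 1 ((TE A E × TE A E) ⧸ LinearMap.range φ) := by
    refine ⟨TE A E × TE A E, inferInstance, inferInstance, Submodule.mkQ _, inferInstance,
      inferInstance, Submodule.mkQ_surjective _, ?_⟩
    have e : TE A E ≃ₗ[TE A E] LinearMap.ker (Submodule.mkQ (LinearMap.range φ)) :=
      (LinearEquiv.ofInjective φ hinj).trans
        (LinearEquiv.ofEq _ _ (Submodule.ker_mkQ _).symm)
    exact ⟨Module.Finite.equiv e, Module.Projective.of_equiv e⟩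
  have hpd : projectiveDimension (ModuleCat.of (TE A E) ((TE A E × TE A E) ⧸ LinearMap.range φ)) ≤ 0 := by
    refine le_trans ?_ hle
    exact le_iSup_of_le (ModuleCat.of (TE A E) ((TE A E × TE A E) ⧸ LinearMap.range φ))
      (le_iSup_of_le ⟨1, hres⟩ le_rfl)
  have hpd' : projectiveDimension (ModuleCat.of (TE A E) ((TE A E × TE A E) ⧸ LinearMap.range φ)) ≤
      ((0 : ℕ) : WithBot ℕ∞) := hpd
  rw [projectiveDimension_le_iff, ← projective_iff_hasProjectiveDimensionLE_zero,
    ← IsProjective.iff_projective] at hpd'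
  -- split
  obtain ⟨σ, hσ⟩ := Module.projective_lifting_property (Submodule.mkQ (LinearMap.range φ))
    LinearMap.id (Submodule.mkQ_surjective _)
  have hσ' : ∀ z, Submodule.mkQ (LinearMap.range φ) (σ z) = z := fun z => LinearMap.congr_fun hσ z
  -- elements `e_i - σ (mk e_i)` lie in the range of `φ`
  have hmem : ∀ w : TE A E × TE A E, ∃ r, φ r = w - σ (Submodule.mkQ (LinearMap.range φ) w) := by
    intro w
    have : w - σ (Submodule.mkQ (LinearMap.range φ) w) ∈ LinearMap.range φ := by
      rw [← Submodule.Quotient.mk_eq_zero (LinearMap.range φ)]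
      change Submodule.mkQ (LinearMap.range φ) _ = 0
      rw [map_sub, hσ', sub_self]
    exact this
  obtain ⟨p, hp⟩ := hmem (1, 0)
  obtain ⟨q, hq⟩ := hmem (0, 1)
  have h0 : Submodule.mkQ (LinearMap.range φ) (φ 1) = 0 := by
    rw [← LinearMap.mem_ker, Submodule.ker_mkQ]
    exact ⟨1, rfl⟩
  have hφ1 : φ 1 = (⟨x, 0⟩ : TE A E) • ((1 : TE A E), (0 : TE A E)) + (⟨y, 0⟩ : TE A E) • ((0 : TE A E), (1 : TE A E)) := by
    rw [hφ]; simp
  have h1 : φ (p * ⟨x, 0⟩ + q * ⟨y, 0⟩) = φ 1 := by
    have : φ (p * ⟨x, 0⟩ + q * ⟨y, 0⟩) = (⟨x, 0⟩ : TE A E) • φ p + (⟨y, 0⟩ : TE A E) • φ q := by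
      rw [← map_smul, ← map_smul, ← map_add, smul_eq_mul, smul_eq_mul, mul_comm p, mul_comm q]
    rw [this, hp, hq, smul_sub, smul_sub, ← map_smul, ← map_smul, ← map_smul, ← map_smul]
    have h2 : (⟨x, 0⟩ : TE A E) • ((1 : TE A E), (0 : TE A E)) + (⟨y, 0⟩ : TE A E) • ((0 : TE A E), (1 : TE A E)) = φ 1 :=
      hφ1.symm
    rw [← h2] at h0
    rw [map_add] at h0
    calc _ = ((⟨x, 0⟩ : TE A E) • ((1 : TE A E), (0 : TE A E)) + (⟨y, 0⟩ : TE A E) • ((0 : TE A E), (1 : TE A E))) -
          σ ((Submodule.mkQ (LinearMap.range φ)) ((⟨x, 0⟩ : TE A E) • ((1 : TE A E), (0 : TE A E))) +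
            (Submodule.mkQ (LinearMap.range φ)) ((⟨y, 0⟩ : TE A E) • ((0 : TE A E), (1 : TE A E)))) := by
          rw [map_add]; abel
      _ = φ 1 := by rw [h0, map_zero, sub_zero, h2]
  have h2 := hinj h1
  have h3 := congrArg TE.a h2
  simp only [TE.add_a, TE.mul_a, TE.one_a] at h3
  exact hprop _ _ h3

section example_module

variable (A : Type) [CommRing A]

/-- the index set -/
abbrev Idx := {f : A // f ≠ 0} × ℕ

/-- `E = ⊕_{(f,n)} A/fA` -/
abbrev EE := Π₀ p : Idx A, A ⧸ Ideal.span {p.1.1}

variable {A}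

lemma fresh_EE : Fresh A (EE A) := by
  classical
  intro F f hf
  obtain ⟨n0, hn0⟩ := Infinite.exists_notMem_finset
    ((F.biUnion fun t => DFinsupp.support t).image Prod.snd)
  let p0 : Idx A := ⟨⟨f, hf⟩, n0⟩
  refine ⟨DFinsupp.lapply (R := A) p0, DFinsupp.single p0 1, ?_, ?_, ?_⟩
  · intro e he
    by_contra hcon
    apply hn0
    rw [Finset.mem_image]
    refine ⟨p0, ?_, rfl⟩
    rw [Finset.mem_biUnion]
    refine ⟨e, he, ?_⟩
    simpa using hcon
  · simp
  · rw [← DFinsupp.single_smul]
    have : f • (1 : A ⧸ Ideal.span {p0.1.1}) = 0 := by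
      rw [Algebra.smul_def, mul_one, Ideal.Quotient.algebraMap_eq]
      exact Ideal.Quotient.eq_zero_iff_mem.2 (Ideal.mem_span_singleton_self _)
    rw [this, DFinsupp.single_zero]

lemma tors_EE [IsDomain A] : Tors A (EE A) := by
  classical
  intro e
  refine ⟨∏ p ∈ e.support, p.1.1, Finset.prod_ne_zero_iff.2 fun p _ => p.1.2, ?_⟩
  ext p
  by_cases hp : p ∈ e.support
  · rw [DFinsupp.smul_apply, DFinsupp.zero_apply]
    have : (∏ p ∈ e.support, p.1.1) ∈ Ideal.span {p.1.1} :=
      Ideal.mem_span_singleton.2 (Finset.dvd_prod_of_mem (fun p : Idx A => p.1.1) hp)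
    rw [Algebra.smul_def, Ideal.Quotient.algebraMap_eq, Ideal.Quotient.eq_zero_iff_mem.2 this,
      zero_mul]
  · have : e p = 0 := by
      by_contra hcon
      exact hp (by simpa using hcon)
    rw [DFinsupp.smul_apply, this, smul_zero, DFinsupp.zero_apply]

lemma reg_EE [IsDomain A] (x y : A) (hx : x ≠ 0) (hxy : ∀ b, x ∣ y * b → x ∣ b) (v : EE A)
    (hv1 : x • v = 0) (hv2 : y • v = 0) : v = 0 := by
  ext p
  obtain ⟨c, hc⟩ := Ideal.Quotient.mk_surjective (v p)
  have e1 : Ideal.Quotient.mk (Ideal.span {p.1.1}) (x * c) = 0 := by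
    have := DFunLike.congr_fun hv1 p
    rw [DFinsupp.smul_apply, ← hc, Algebra.smul_def] at this
    rw [map_mul]
    exact this
  have e2 : Ideal.Quotient.mk (Ideal.span {p.1.1}) (y * c) = 0 := by
    have := DFunLike.congr_fun hv2 p
    rw [DFinsupp.smul_apply, ← hc, Algebra.smul_def] at this
    rw [map_mul]
    exact this
  rw [Ideal.Quotient.eq_zero_iff_mem, Ideal.mem_span_singleton'] at e1 e2
  obtain ⟨b, hb⟩ := e1
  obtain ⟨d, hd⟩ := e2
  have h3 : y * b = x * d := by
    apply mul_right_cancel₀ p.1.2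
    linear_combination y * hb - x * hd
  obtain ⟨b', hb'⟩ := hxy b ⟨d, h3⟩
  have h4 : c = b' * p.1.1 := by
    apply mul_left_cancel₀ hx
    rw [← hb, hb']; ring
  rw [← hc, h4, DFinsupp.zero_apply, Ideal.Quotient.eq_zero_iff_mem]
  exact Ideal.mul_mem_left _ _ (Ideal.mem_span_singleton_self _)

end example_module

/-- **Q1 has a negative answer**: there is a commutative ring that is a weak `(n,0)`-ring in the
sense of Mahdou for every `n ≥ 2` and whose small finitistic dimension is positive. -/
theorem result : ∃ (R : Type) (_ : CommRing R), (∀ n, 2 ≤ n → IsMahdouWeak R n 0) ∧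
    0 < fPD R := by
  refine ⟨TE (Polynomial ℤ) (EE (Polynomial ℤ)), inferInstance,
    fun n hn => mahdou_weak fresh_EE tors_EE n hn,
    not_le.1 (fPD_pos (Polynomial.X) (Polynomial.C 2) Polynomial.X_ne_zero
      (reg_EE _ _ Polynomial.X_ne_zero ?_) ?_)⟩
  · intro b hb
    rcases Polynomial.prime_X.dvd_or_dvd hb with h | h
    · rw [Polynomial.X_dvd_iff] at h
      simp at h
    · exact h
  · intro p q h
    have := congrArg (Polynomial.eval₂ (Int.castRingHom (ZMod 2)) 0) h
    rw [Polynomial.eval₂_add, Polynomial.eval₂_mul, Polynomial.eval₂_mul, Polynomial.eval₂_X,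
      Polynomial.eval₂_C, Polynomial.eval₂_one] at this
    have h2 : (Int.castRingHom (ZMod 2)) 2 = 0 := by decide
    rw [h2] at this
    simp at this

end Pool.Agent.Results.MP_682377_al.MahdouWeakFPD
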